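import Mathlib
import Pool.Agent.R865.SA.Facts

/-!
# MP_0765f6_an

A continuously differentiable interval map with a non-closed special alpha-limit set.
-/

open Filter Topology

namespace Pool.Agent.Results.MP_0765f6_an.NonClosed

/-- `u` is a backward orbit branch of `x` under `f` in `[0,1]`: all `u n` lie in `[0,1]`, `u 0 = x`
and `f (u (n+1)) = u n`. -/
def IsBranch (f : ℝ → ℝ) (x : ℝ) (u : ℕ → ℝ) : Prop :=
  (∀ n, u n ∈ Set.Icc (0 : ℝ) 1) ∧ u 0 = x ∧ ∀ n, f (u (n + 1)) = u n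

/-- The special `α`-limit set of `x`: the points `y ∈ [0,1]` that are limits of a subsequence of
some backward orbit branch of `x`. -/
def sAlpha (f : ℝ → ℝ) (x : ℝ) : Set ℝ :=
  {y | y ∈ Set.Icc (0 : ℝ) 1 ∧ ∃ u : ℕ → ℝ, IsBranch f x u ∧ ∃ φ : ℕ → ℕ, StrictMono φ ∧
    Tendsto (fun k => u (φ k)) atTop (𝓝 y)}

/-- **MP_0765f6_an, Q1 (disproof).** There are a continuously differentiable `f : ℝ → ℝ` mapping
`[0,1]` into itself and a point `x ∈ [0,1]` such that the special `α`-limit set of `x` under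
`f : [0,1] → [0,1]` is not closed. -/
theorem result : ∃ f : ℝ → ℝ, ContDiff ℝ 1 f ∧ (∀ t ∈ Set.Icc (0 : ℝ) 1, f t ∈ Set.Icc (0 : ℝ) 1) ∧
    ∃ x ∈ Set.Icc (0 : ℝ) 1, ¬ IsClosed (sAlpha f x) :=
  ⟨R865.SA.f, R865.SA.contDiff_f, fun _ ht => R865.SA.f_maps ht, 1 / 2,
    ⟨by norm_num, by norm_num⟩, R865.SA.not_closed⟩

end Pool.Agent.Results.MP_0765f6_an.NonClosed
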